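import Pool.Agent.W23.KT.Defs
import Pool.Agent.W342.DC.SP

set_option autoImplicit false

/-!
KT-SPK: smooth parts of linear forms at primes, arbitrary power of `ε₁/ε`, by high moments of the
sum of `log l` over the small primes `l` dividing `L(p)`.
-/

namespace Pool.Agent.W54.KT

open Finset ArithmeticFunction Filter
open Pool.Agent.W23.DS (Q mem_Q mert)
open Pool.Agent.W342.DC (PN mem_PN markov)
open Pool.Agent.W23.SG (lf)
open Pool.Agent.W23.KT
open Pool.Agent.H617R3.BT (cnt cnt_eq mem_pf)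

/-- the primes `p ≤ N` with `d ∣ L(p)` -/
noncomputable def cl (N : ℕ) (L : ℤ × ℕ) (d : ℕ) : Finset ℕ :=
  (PN N).filter (fun p : ℕ => (d : ℤ) ∣ lf L p)

theorem mem_cl {N : ℕ} {L : ℤ × ℕ} {d p : ℕ} : p ∈ cl N L d ↔ p ∈ PN N ∧ (d : ℤ) ∣ lf L p := by
  unfold cl
  rw [mem_filter]

/-- the condition `d ∣ L(n)` is empty or one class -/
theorem cl_class {L : ℤ × ℕ} (hL : Int.gcd L.1 L.2 = 1) (d : ℕ) :
    (∀ n : ℤ, ¬ (d : ℤ) ∣ lf L n) ∨ ∃ s : ℤ, ∀ n : ℤ, (d : ℤ) ∣ lf L n ↔ (d : ℤ) ∣ s - n := by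
  by_cases hc : IsCoprime (d : ℤ) (L.2 : ℤ)
  · right
    obtain ⟨u, v, h⟩ := hc
    refine ⟨-(L.1 * v), fun n => ?_⟩
    unfold lf
    constructor
    · rintro ⟨k, hk⟩
      refine ⟨-(v * k + u * n), ?_⟩
      linear_combination (-v) * hk + n * h
    · rintro ⟨k, hk⟩
      refine ⟨-(L.2 * k) + L.1 * u, ?_⟩
      linear_combination (-(L.2 : ℤ)) * hk - L.1 * h
  · left
    intro n hn
    apply hc
    have h1 : IsCoprime L.1 (L.2 : ℤ) := Int.isCoprime_iff_gcd_eq_one.2 hL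
    have h2 : IsCoprime (lf L n) (L.2 : ℤ) := by
      unfold lf
      exact h1.add_mul_left_left n
    exact h2.of_isCoprime_of_dvd_left hn

theorem cl_le_cnt {N : ℕ} {L : ℤ × ℕ} (hL : Int.gcd L.1 L.2 = 1) (d : ℕ) :
    ∃ s : ℤ, (cl N L d).card ≤ cnt N N d s := by
  rcases cl_class hL d with h | ⟨s, hs⟩
  · refine ⟨0, ?_⟩
    have : cl N L d = ∅ := by
      rw [Finset.eq_empty_iff_forall_notMem]
      intro p hp
      exact h _ (mem_cl.1 hp).2
    rw [this]
    simp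
  · refine ⟨s, ?_⟩
    rw [cnt_eq]
    apply Finset.card_le_card
    intro p hp
    rw [mem_cl, mem_PN] at hp
    rw [mem_pf]
    refine ⟨hp.1.1, ?_, by exact_mod_cast hp.1.2, ?_⟩
    · rw [sub_self]
      exact_mod_cast hp.1.1.pos
    · exact Int.modEq_iff_dvd.2 ((hs _).1 hp.2)

theorem cl_triv {N : ℕ} {L : ℤ × ℕ} (hL : Int.gcd L.1 L.2 = 1) {d : ℕ} (_hd : 1 ≤ d) :
    ((cl N L d).card : ℝ) ≤ N / d + 1 := by
  have h1 : (cl N L d).card ≤ N / d + 1 := by
    rcases cl_class hL d with h | ⟨s, hs⟩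
    · have : cl N L d = ∅ := by
        rw [Finset.eq_empty_iff_forall_notMem]
        intro p hp
        exact h _ (mem_cl.1 hp).2
      rw [this]
      simp
    · rw [← Finset.card_range (N / d + 1)]
      apply Finset.card_le_card_of_injOn (fun p : ℕ => p / d)
      · intro p hp
        rw [Finset.mem_coe, mem_cl, mem_PN] at hp
        rw [Finset.mem_coe, mem_range]
        exact Nat.lt_succ_of_le (Nat.div_le_div_right hp.1.2)
      · intro p hp p' hp' h
        rw [Finset.mem_coe, mem_cl] at hp hp'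
        have h2 := (hs _).1 hp.2
        have h3 := (hs _).1 hp'.2
        have h4 : (d : ℤ) ∣ (p : ℤ) - p' := by
          have := dvd_sub h3 h2
          have e : s - (p' : ℤ) - (s - (p : ℤ)) = (p : ℤ) - p' := by ring
          rwa [e] at this
        have h5 : p % d = p' % d := by
          have h6 : (p' : ℤ) ≡ p [ZMOD (d : ℤ)] := Int.modEq_iff_dvd.2 h4
          exact ((Int.natCast_modEq_iff).1 h6).symm
        change p / d = p' / d at h
        rw [← Nat.div_add_mod p d, ← Nat.div_add_mod p' d, h, h5]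
  have h2 : ((N / d : ℕ) : ℝ) ≤ (N : ℝ) / d := Nat.cast_div_le
  have h3 : ((cl N L d).card : ℝ) ≤ ((N / d : ℕ) : ℝ) + 1 := by exact_mod_cast h1
  linarith

/-- the sum of `log l` over the `l ∈ S` dividing `L(p)` -/
noncomputable def RL (S : Finset ℕ) (L : ℤ × ℕ) (p : ℕ) : ℝ :=
  ∑ l ∈ S, if (l : ℤ) ∣ lf L p then Real.log l else 0

theorem RL_nonneg (S : Finset ℕ) (L : ℤ × ℕ) (p : ℕ) : 0 ≤ RL S L p := by
  unfold RL
  apply Finset.sum_nonneg
  intro l _
  split_ifs
  · exact Real.log_natCast_nonneg l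
  · exact le_rfl

/-- high moments -/
theorem moment {N : ℕ} {L : ℤ × ℕ} {M₀ Y : ℝ} (hM : 0 ≤ M₀) (hY : 0 ≤ Y) (J₀ : ℕ)
    (S : Finset ℕ) (hS : ∀ l ∈ S, l.Prime) (hlog : ∀ l ∈ S, Real.log l ≤ Y)
    (hsum : ∑ l ∈ S, Real.log l / ((l : ℝ) - 1) ≤ 2 * Y)
    (h0 : ∀ D ⊆ S, D.card ≤ J₀ →
      ((cl N L (∏ l ∈ D, l)).card : ℝ) ≤ M₀ / ∏ l ∈ D, ((l : ℝ) - 1))
    (J : ℕ) : ∀ D ⊆ S, D.card + J ≤ J₀ →
      ∑ p ∈ cl N L (∏ l ∈ D, l), (RL S L p) ^ J ≤
        ((J₀ + 2) * Y) ^ J * (M₀ / ∏ l ∈ D, ((l : ℝ) - 1)) := by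
  classical
  have hge : ∀ l ∈ S, (0 : ℝ) < (l : ℝ) - 1 := by
    intro l hl
    have : (2 : ℝ) ≤ l := by exact_mod_cast (hS l hl).two_le
    linarith
  induction J with
  | zero =>
    intro D hD hc
    simp only [pow_zero, sum_const, nsmul_eq_mul, mul_one, one_mul]
    exact h0 D hD (by omega)
  | succ J ih =>
    intro D hD hc
    have hDpos : 0 < ∏ l ∈ D, ((l : ℝ) - 1) := Finset.prod_pos fun l hl => hge l (hD hl)
    have hJ0 : (0 : ℝ) ≤ J₀ := Nat.cast_nonneg _
    set W : ℝ := ((J₀ + 2) * Y) ^ J * (M₀ / ∏ l ∈ D, ((l : ℝ) - 1)) with hW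
    have hW0 : 0 ≤ W := by positivity
    have e1 : ∑ p ∈ cl N L (∏ l ∈ D, l), (RL S L p) ^ (J + 1) =
        ∑ l ∈ S, Real.log l *
          ∑ p ∈ (cl N L (∏ l ∈ D, l)).filter (fun p : ℕ => (l : ℤ) ∣ lf L p), (RL S L p) ^ J := by
      simp_rw [Finset.sum_filter, Finset.mul_sum]
      rw [Finset.sum_comm]
      apply Finset.sum_congr rfl
      intro p _
      rw [pow_succ]
      nth_rewrite 2 [RL]
      rw [Finset.mul_sum]
      apply Finset.sum_congr rfl
      intro l _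
      split_ifs <;> ring
    have e2 : ∀ l ∈ S, Real.log l *
          ∑ p ∈ (cl N L (∏ l ∈ D, l)).filter (fun p : ℕ => (l : ℤ) ∣ lf L p), (RL S L p) ^ J ≤
        W * ((if l ∈ D then Real.log l else 0) + Real.log l / ((l : ℝ) - 1)) := by
      intro l hl
      have k1 : 0 ≤ Real.log l := Real.log_natCast_nonneg l
      have k2 := hge l hl
      by_cases hlD : l ∈ D
      · rw [if_pos hlD]
        have h1 : ∑ p ∈ (cl N L (∏ l ∈ D, l)).filter (fun p : ℕ => (l : ℤ) ∣ lf L p),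
            (RL S L p) ^ J ≤ W := by
          refine le_trans ?_ (ih D hD (by omega))
          exact Finset.sum_le_sum_of_subset_of_nonneg (Finset.filter_subset _ _)
            fun p _ _ => pow_nonneg (RL_nonneg S L p) J
        have h2 : 0 ≤ W * (Real.log l / ((l : ℝ) - 1)) := by positivity
        have h3 := mul_le_mul_of_nonneg_left h1 k1
        nlinarith
      · rw [if_neg hlD, zero_add]
        have e3 : (cl N L (∏ l ∈ D, l)).filter (fun p : ℕ => (l : ℤ) ∣ lf L p) ⊆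
            cl N L (∏ l' ∈ insert l D, l') := by
          intro p hp
          rw [mem_filter, mem_cl] at hp
          rw [mem_cl]
          refine ⟨hp.1.1, ?_⟩
          rw [Finset.prod_insert hlD, Nat.cast_mul]
          refine IsCoprime.mul_dvd ?_ hp.2 hp.1.2
          rw [Nat.isCoprime_iff_coprime]
          refine Nat.Coprime.prod_right fun l' hl' => ?_
          refine (Nat.coprime_primes (hS l hl) (hS l' (hD hl'))).2 ?_
          rintro rfl
          exact hlD hl'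
        have h1 : ∑ p ∈ (cl N L (∏ l ∈ D, l)).filter (fun p : ℕ => (l : ℤ) ∣ lf L p),
            (RL S L p) ^ J ≤ W / ((l : ℝ) - 1) := by
          refine le_trans (Finset.sum_le_sum_of_subset_of_nonneg e3
            fun p _ _ => pow_nonneg (RL_nonneg S L p) J) ?_
          refine (ih (insert l D) (Finset.insert_subset hl hD) (by
            rw [Finset.card_insert_of_notMem hlD]; omega)).trans (le_of_eq ?_)
          rw [Finset.prod_insert hlD, hW]
          field_simp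
        have h3 := mul_le_mul_of_nonneg_left h1 k1
        refine h3.trans (le_of_eq ?_)
        ring
    rw [e1]
    refine (Finset.sum_le_sum e2).trans ?_
    rw [← Finset.mul_sum, Finset.sum_add_distrib, Finset.sum_ite_mem,
      Finset.inter_eq_right.2 hD]
    have h4 : ∑ l ∈ D, Real.log l ≤ J₀ * Y := by
      calc ∑ l ∈ D, Real.log l ≤ ∑ _l ∈ D, Y := Finset.sum_le_sum fun l hl => hlog l (hD hl)
        _ = D.card * Y := by rw [Finset.sum_const, nsmul_eq_mul]
        _ ≤ J₀ * Y := by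
          apply mul_le_mul_of_nonneg_right _ hY
          exact_mod_cast (by omega : D.card ≤ J₀)
    have h5 : ∑ l ∈ D, Real.log l + ∑ l ∈ S, Real.log l / ((l : ℝ) - 1) ≤ (J₀ + 2) * Y := by
      linarith
    calc W * (∑ l ∈ D, Real.log l + ∑ l ∈ S, Real.log l / ((l : ℝ) - 1))
        ≤ W * ((J₀ + 2) * Y) := mul_le_mul_of_nonneg_left h5 hW0
      _ = ((J₀ + 2) * Y) ^ (J + 1) * (M₀ / ∏ l ∈ D, ((l : ℝ) - 1)) := by
        rw [hW, pow_succ]
        ring

/-- the higher prime powers -/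
theorem nonprimeL (δ : ℝ) (hδ : 0 < δ) : ∃ S₀ : ℝ, 0 ≤ S₀ ∧ ∀ (N : ℕ) (L : ℤ × ℕ),
    Int.gcd L.1 L.2 = 1 → ∀ T : Finset ℕ, (∀ d ∈ T, 1 ≤ d ∧ ¬ d.Prime) →
      ∑ d ∈ T, Λ d * ((cl N L d).card : ℝ) ≤ S₀ * (PN N).card + δ * N + ∑ d ∈ T, Λ d := by
  have hs := ArithmeticFunction.vonMangoldt.summable_residueClass_non_primes_div (q := 1) 1
  have hv := hs.vanishing (e := Metric.ball (0 : ℝ) δ) (Metric.ball_mem_nhds _ hδ)
  obtain ⟨s, hs⟩ := hv
  refine ⟨∑ d ∈ s, Λ d, Finset.sum_nonneg fun _ _ => vonMangoldt_nonneg, ?_⟩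
  intro N L hL P hP
  have h1 : ∑ d ∈ P, Λ d * ((cl N L d).card : ℝ) =
      ∑ d ∈ P.filter (fun d => d ∈ s), Λ d * ((cl N L d).card : ℝ) +
      ∑ d ∈ P.filter (fun d => ¬ d ∈ s), Λ d * ((cl N L d).card : ℝ) :=
    (Finset.sum_filter_add_sum_filter_not _ _ _).symm
  have h2 : ∑ d ∈ P.filter (fun d => d ∈ s), Λ d * ((cl N L d).card : ℝ) ≤
      (∑ d ∈ s, Λ d) * (PN N).card := by
    rw [Finset.sum_mul]
    refine (Finset.sum_le_sum (g := fun d => Λ d * ((PN N).card : ℝ)) ?_).trans ?_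
    · intro d _
      refine mul_le_mul_of_nonneg_left ?_ vonMangoldt_nonneg
      unfold cl
      exact_mod_cast Finset.card_filter_le _ _
    · apply Finset.sum_le_sum_of_subset_of_nonneg
      · intro d hd
        exact (mem_filter.1 hd).2
      · intro d _ _
        exact mul_nonneg vonMangoldt_nonneg (Nat.cast_nonneg _)
  have h3 : ∑ d ∈ P.filter (fun d => ¬ d ∈ s), Λ d * ((cl N L d).card : ℝ) ≤
      δ * N + ∑ d ∈ P, Λ d := by
    have h4 := hs (P.filter (fun d => ¬ d ∈ s)) (by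
      rw [Finset.disjoint_left]
      intro d hd
      exact (mem_filter.1 hd).2)
    rw [Metric.mem_ball, dist_zero_right, Real.norm_eq_abs] at h4
    have h5 := (abs_lt.1 h4).2
    have h6 : ∑ d ∈ P.filter (fun d => ¬ d ∈ s), Λ d * ((cl N L d).card : ℝ) ≤
        N * ∑ d ∈ P.filter (fun d => ¬ d ∈ s),
          (if d.Prime then 0 else ArithmeticFunction.vonMangoldt.residueClass (1 : ZMod 1) d) /
            (d : ℝ) + ∑ d ∈ P.filter (fun d => ¬ d ∈ s), Λ d := by
      rw [Finset.mul_sum, ← Finset.sum_add_distrib]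
      apply Finset.sum_le_sum
      intro d hd
      rw [mem_filter] at hd
      rw [if_neg (hP d hd.1).2]
      have h7 : ArithmeticFunction.vonMangoldt.residueClass (1 : ZMod 1) d = Λ d := by
        unfold ArithmeticFunction.vonMangoldt.residueClass
        rw [Set.indicator_of_mem]
        exact Subsingleton.elim _ _
      rw [h7]
      have h8 := cl_triv (N := N) hL (hP d hd.1).1
      calc Λ d * ((cl N L d).card : ℝ) ≤ Λ d * (N / d + 1) :=
            mul_le_mul_of_nonneg_left h8 vonMangoldt_nonneg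
        _ = N * (Λ d / d) + Λ d := by ring
    have h7 : (N : ℝ) * ∑ d ∈ P.filter (fun d => ¬ d ∈ s),
          (if d.Prime then 0 else ArithmeticFunction.vonMangoldt.residueClass (1 : ZMod 1) d) /
            (d : ℝ) ≤ N * δ := mul_le_mul_of_nonneg_left h5.le (by positivity)
    have h8 : ∑ d ∈ P.filter (fun d => ¬ d ∈ s), Λ d ≤ ∑ d ∈ P, Λ d :=
      Finset.sum_le_sum_of_subset_of_nonneg (Finset.filter_subset _ _)
        fun _ _ _ => vonMangoldt_nonneg
    linarith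
  linarith

/-- the prime powers with small prime -/
noncomputable def TT (y : ℝ) (X : ℕ) : Finset ℕ := by
  classical
  exact (Icc 1 X).filter (fun d => ¬ d.Prime ∧ IsPrimePow d ∧ (d.minFac : ℝ) ≤ y)

theorem mem_TT {y : ℝ} {X d : ℕ} :
    d ∈ TT y X ↔ (1 ≤ d ∧ d ≤ X) ∧ ¬ d.Prime ∧ IsPrimePow d ∧ (d.minFac : ℝ) ≤ y := by
  classical
  unfold TT
  rw [mem_filter, mem_Icc]

theorem sum_TT {y : ℝ} (hy : 1 ≤ y) (X : ℕ) :
    ∑ d ∈ TT y X, Λ d ≤ y * (Nat.log 2 X + 1) * Real.log y := by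
  classical
  have h1 : (TT y X).card ≤ ⌊y⌋₊ * (Nat.log 2 X + 1) := by
    have h2 : TT y X ⊆ (Icc 1 ⌊y⌋₊ ×ˢ range (Nat.log 2 X + 1)).image (fun t => t.1 ^ t.2) := by
      intro d hd
      rw [mem_TT] at hd
      obtain ⟨⟨hd1, hdX⟩, -, hpp, hmin⟩ := hd
      obtain ⟨l, k, hl, hk, rfl⟩ := (isPrimePow_nat_iff d).1 hpp
      rw [mem_image]
      refine ⟨(l, k), ?_, rfl⟩
      rw [mem_product, mem_Icc, mem_range]
      rw [hl.pow_minFac hk.ne'] at hmin
      refine ⟨⟨hl.one_lt.le, Nat.le_floor hmin⟩, ?_⟩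
      refine Nat.lt_succ_of_le ?_
      refine Nat.le_log_of_pow_le (by norm_num) ?_
      exact le_trans (Nat.pow_le_pow_left hl.two_le k) hdX
    refine (card_le_card h2).trans (card_image_le.trans ?_)
    rw [card_product, Nat.card_Icc, card_range]
    simp
  have h3 : ((TT y X).card : ℝ) ≤ y * (Nat.log 2 X + 1) := by
    have h4 : ((TT y X).card : ℝ) ≤ (⌊y⌋₊ : ℝ) * (Nat.log 2 X + 1) := by exact_mod_cast h1
    refine h4.trans (mul_le_mul_of_nonneg_right (Nat.floor_le (by linarith)) (by positivity))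
  calc ∑ d ∈ TT y X, Λ d ≤ ∑ _d ∈ TT y X, Real.log y := by
        apply Finset.sum_le_sum
        intro d hd
        rw [mem_TT] at hd
        rw [vonMangoldt_apply, if_pos hd.2.2.1]
        apply Real.log_le_log _ hd.2.2.2
        exact_mod_cast Nat.minFac_pos d
    _ = (TT y X).card * Real.log y := by rw [Finset.sum_const, nsmul_eq_mul]
    _ ≤ y * (Nat.log 2 X + 1) * Real.log y :=
        mul_le_mul_of_nonneg_right h3 (Real.log_nonneg hy)

/-- the logarithm of a smooth divisor -/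
theorem log_leL {L : ℤ × ℕ} {p m X : ℕ} {y : ℝ} (hpa : lf L p ≠ 0)
    (hX : (lf L p).natAbs ≤ X) (hm : m ∣ (lf L p).natAbs)
    (hy : ∀ l : ℕ, l.Prime → l ∣ m → (l : ℝ) < y) :
    Real.log m ≤ RL (Q 1 y) L p + ∑ d ∈ TT y X, if (d : ℤ) ∣ lf L p then Λ d else 0 := by
  classical
  have hn : (lf L p).natAbs ≠ 0 := Int.natAbs_ne_zero.2 hpa
  have hm0 : m ≠ 0 := fun h => hn (by rw [h] at hm; exact Nat.eq_zero_of_zero_dvd hm)
  have hmN : ∀ d ∈ m.divisors, d ∣ (lf L p).natAbs ∧ 1 ≤ d ∧ d ≤ X := by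
    intro d hd
    have hd' := Nat.mem_divisors.1 hd
    have h1 : d ∣ (lf L p).natAbs := hd'.1.trans hm
    have h2 := Nat.le_of_dvd (Nat.pos_of_ne_zero hn) h1
    exact ⟨h1, Nat.pos_of_mem_divisors hd, h2.trans hX⟩
  rw [← vonMangoldt_sum, ← Finset.sum_filter_add_sum_filter_not m.divisors Nat.Prime]
  apply add_le_add
  · unfold RL
    rw [← Finset.sum_filter]
    have e1 : ∑ d ∈ m.divisors.filter Nat.Prime, Λ d =
        ∑ d ∈ m.divisors.filter Nat.Prime, Real.log d := by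
      apply Finset.sum_congr rfl
      intro d hd
      rw [vonMangoldt_apply_prime (mem_filter.1 hd).2]
    rw [e1]
    apply Finset.sum_le_sum_of_subset_of_nonneg
    · intro d hd
      rw [mem_filter] at hd
      rw [mem_filter, mem_Q]
      have h1 := hmN d hd.1
      exact ⟨⟨hd.2, by exact_mod_cast hd.2.one_lt,
        (hy d hd.2 (Nat.mem_divisors.1 hd.1).1).le⟩, Int.natCast_dvd.2 h1.1⟩
    · intro d _ _
      exact Real.log_natCast_nonneg d
  · rw [← Finset.sum_filter]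
    have e2 : ∑ d ∈ (m.divisors.filter (fun d => ¬ d.Prime)).filter IsPrimePow, Λ d =
        ∑ d ∈ m.divisors.filter (fun d => ¬ d.Prime), Λ d := by
      apply Finset.sum_filter_of_ne
      intro d _ h
      exact vonMangoldt_ne_zero_iff.1 h
    rw [← e2]
    apply Finset.sum_le_sum_of_subset_of_nonneg
    · intro d hd
      rw [mem_filter, mem_filter] at hd
      rw [mem_filter, mem_TT]
      have h1 := hmN d hd.1.1
      refine ⟨⟨h1.2, hd.1.2, hd.2, ?_⟩, Int.natCast_dvd.2 h1.1⟩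
      exact (hy _ (Nat.minFac_prime hd.2.ne_one)
        ((Nat.minFac_dvd d).trans (Nat.mem_divisors.1 hd.1.1).1)).le
    · intro d _ _
      exact vonMangoldt_nonneg

theorem tot_prod (D : Finset ℕ) (hD : ∀ l ∈ D, l.Prime) :
    ((Nat.totient (∏ l ∈ D, l) : ℕ) : ℝ) = ∏ l ∈ D, ((l : ℝ) - 1) := by
  classical
  induction D using Finset.induction_on with
  | empty => simp
  | insert l D hl ih =>
    have hlp := hD l (mem_insert_self _ _)
    rw [Finset.prod_insert hl, Finset.prod_insert hl, Nat.totient_mul, Nat.cast_mul,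
      ih (fun l' h => hD l' (mem_insert_of_mem h)), Nat.totient_prime hlp,
      Nat.cast_sub hlp.one_lt.le, Nat.cast_one]
    refine Nat.Coprime.prod_right fun l' hl' => ?_
    refine (Nat.coprime_primes hlp (hD l' (mem_insert_of_mem hl'))).2 ?_
    rintro rfl
    exact hl hl'

theorem lf_bound {M N p : ℕ} {F : ℤ × ℕ} (hF : FoM M N F) (hN : 1 ≤ N) (hp : p ≤ N) :
    (lf F p).natAbs ≤ 2 * N ^ (M + 1) := by
  have hN1 : (1 : ℝ) ≤ N := by exact_mod_cast hN
  have hp' : (p : ℝ) ≤ N := by exact_mod_cast hp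
  have h1 : (((lf F p).natAbs : ℕ) : ℝ) ≤ ((2 * N ^ (M + 1) : ℕ) : ℝ) := by
    rw [Nat.cast_natAbs]
    unfold lf
    push_cast
    have h2 := hF.a
    have h3 := hF.b2
    have h4 : |(F.1 : ℝ) + (F.2 : ℝ) * (p : ℝ)| ≤ |(F.1 : ℝ)| + (F.2 : ℝ) * p := by
      refine (abs_add_le _ _).trans ?_
      rw [abs_of_nonneg (show (0 : ℝ) ≤ (F.2 : ℝ) * p by positivity)]
    have h5 : (F.2 : ℝ) * p ≤ (N : ℝ) ^ M * N :=
      mul_le_mul h3 hp' (by positivity) (by positivity)
    have h6 : (N : ℝ) ^ M ≤ (N : ℝ) ^ M * N := by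
      have : (0 : ℝ) < (N : ℝ) ^ M := by positivity
      nlinarith
    rw [pow_succ]
    linarith
  exact_mod_cast h1

theorem log_bound {M N : ℕ} (hN : 1 ≤ Real.log (N : ℝ)) :
    ((Nat.log 2 (2 * N ^ (M + 1)) : ℕ) : ℝ) + 1 ≤ (2 * M + 4) * Real.log N := by
  have hN1 : (1 : ℝ) < N := by
    by_contra h
    have h0 : Real.log (N : ℝ) ≤ 0 := Real.log_nonpos (Nat.cast_nonneg _) (not_lt.1 h)
    linarith
  have hN0 : (0 : ℝ) < N := by linarith
  have hX : 2 * N ^ (M + 1) ≠ 0 := by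
    have : N ≠ 0 := by
      rintro rfl
      norm_num at hN0
    positivity
  have h1 : 2 ^ (Nat.log 2 (2 * N ^ (M + 1))) ≤ 2 * N ^ (M + 1) := Nat.pow_log_le_self 2 hX
  have h2 : ((2 : ℝ)) ^ (Nat.log 2 (2 * N ^ (M + 1))) ≤ 2 * (N : ℝ) ^ (M + 1) := by
    exact_mod_cast h1
  have h3 := Real.log_le_log (by positivity) h2
  rw [Real.log_pow, Real.log_mul (by norm_num) (by positivity), Real.log_pow] at h3
  have h4 : (0.6931471803 : ℝ) < Real.log 2 := Real.log_two_gt_d9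
  have h5 : Real.log 2 < 0.6931471808 := Real.log_two_lt_d9
  set k : ℝ := ((Nat.log 2 (2 * N ^ (M + 1)) : ℕ) : ℝ) with hk
  have hk0 : 0 ≤ k := Nat.cast_nonneg _
  have hM0 : (0 : ℝ) ≤ M := Nat.cast_nonneg _
  push_cast at h3
  set l : ℝ := Real.log N with hl
  have h6 : k * (1 / 2) ≤ 7 / 10 + (M + 1) * l := by
    nlinarith
  nlinarith

theorem SPK : St_SPK := by
  classical
  obtain ⟨Z, hZ3, hZ⟩ := Pool.Agent.H617R3.BT.bt 1 one_pos
  obtain ⟨C₀, hC₀, hmert⟩ := mert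
  intro M j
  refine ⟨3 * (4 * j) ^ j + 4 * (2 * (j + 2)) ^ j + 1, by positivity, ?_⟩
  intro ε₁ ε hε₁ hε₁8 hε hε1
  set δ : ℝ := ε * (ε₁ / ε) ^ j / 8 with hδ
  have hδ0 : 0 < δ := by positivity
  obtain ⟨S₀, hS₀, hnp⟩ := nonprimeL δ hδ0
  have hlog : Tendsto (fun N : ℕ => Real.log (N : ℝ)) atTop atTop :=
    Real.tendsto_log_atTop.comp tendsto_natCast_atTop_atTop
  have hpow : Tendsto (fun N : ℕ => ((N : ℝ)) ^ (3 / 4 : ℝ)) atTop atTop :=
    (tendsto_rpow_atTop (by norm_num)).comp tendsto_natCast_atTop_atTop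
  have hpow' : Tendsto (fun N : ℕ => ((N : ℝ)) ^ (5 / 8 : ℝ)) atTop atTop :=
    (tendsto_rpow_atTop (by norm_num)).comp tendsto_natCast_atTop_atTop
  obtain ⟨N₀, hN₀⟩ := eventually_atTop.1 ((hlog.eventually_ge_atTop 1).and
    ((hlog.eventually_ge_atTop (C₀ / ε₁)).and
    ((hlog.eventually_ge_atTop (3 * S₀ / δ)).and
    ((hpow.eventually_ge_atTop Z).and
    ((hpow'.eventually_ge_atTop (64 * (2 * M + 4) / δ)).and (eventually_ge_atTop ⌈Z⌉₊))))))
  refine ⟨N₀, ?_⟩
  intro N hN F hF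
  obtain ⟨hL1, hLC, hLS, hNZ, hN58, hNZ'⟩ := hN₀ N hN
  set L : ℝ := Real.log (N : ℝ) with hL
  have hN1 : (1 : ℝ) < N := by
    by_contra h
    have h0 : L ≤ 0 := Real.log_nonpos (Nat.cast_nonneg _) (not_lt.1 h)
    linarith
  have hN0 : (0 : ℝ) < N := by linarith
  have hN1' : 1 ≤ N := by exact_mod_cast hN1.le
  have hL0 : 0 < L := by linarith
  have hq0 : 0 ≤ (ε₁ / ε) ^ j * ((N : ℝ) / L) := by positivity
  -- the number of primes
  have hcardP : ((PN N).card : ℝ) ≤ 3 * N / L := by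
    have h1 : (PN N).card ≤ cnt N N 1 0 := by
      rw [cnt_eq]
      apply Finset.card_le_card
      intro p hp
      rw [mem_PN] at hp
      rw [mem_pf]
      refine ⟨hp.1, ?_, by exact_mod_cast hp.2, ?_⟩
      · rw [sub_self]
        exact_mod_cast hp.1.pos
      · exact Int.modEq_iff_dvd.2 (by simp)
    have h3 := hZ 1 0 N N le_rfl (by
      rw [Nat.cast_one, div_one]
      exact (Nat.le_ceil Z).trans (by exact_mod_cast hNZ'))
    rw [Nat.totient_one, Nat.cast_one, one_mul, div_one] at h3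
    have h4 : ((PN N).card : ℝ) ≤ (cnt N N 1 0 : ℝ) := by exact_mod_cast h1
    have h5 : (2 + 1 : ℝ) * N / Real.log N = 3 * N / L := by norm_num [hL]
    linarith
  set Bad := (Icc 1 N).filter (fun p : ℕ => p.Prime ∧ lf F p ≠ 0 ∧ ∃ m : ℕ,
      m ∣ (lf F p).natAbs ∧
      (∀ l : ℕ, l.Prime → l ∣ m → (l : ℝ) < (N : ℝ) ^ ε₁) ∧ (N : ℝ) ^ ε < m) with hBad
  rcases lt_or_ge (1 / 4) (ε₁ * j) with hcase | hcase
  · -- trivial case
    have h1 : (Bad.card : ℝ) ≤ 3 * N / L := by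
      refine le_trans ?_ hcardP
      have : Bad ⊆ PN N := by
        intro p hp
        rw [hBad, mem_filter, mem_Icc] at hp
        exact mem_PN.2 ⟨hp.2.1, hp.1.2⟩
      exact_mod_cast Finset.card_le_card this
    have h2 : 1 ≤ ((4 * j) * (ε₁ / ε)) ^ j := by
      apply one_le_pow₀
      have h3 : ε₁ ≤ ε₁ / ε := by
        rw [le_div_iff₀ hε]
        nlinarith
      have h4 : (0 : ℝ) ≤ j := Nat.cast_nonneg _
      nlinarith
    rw [mul_pow] at h2
    have h3 : 3 * (N : ℝ) / L = 3 * (N / L) := by ring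
    have h4 : 0 ≤ (N : ℝ) / L := by positivity
    have h5 : 0 ≤ 4 * (2 * ((j : ℝ) + 2)) ^ j * ((ε₁ / ε) ^ j * ((N : ℝ) / L)) := by positivity
    have h6 := mul_le_mul_of_nonneg_right h2 h4
    calc (Bad.card : ℝ) ≤ 3 * (1 * (N / L)) := by linarith
      _ ≤ 3 * ((4 * (j : ℝ)) ^ j * (ε₁ / ε) ^ j * (N / L)) := by linarith
      _ ≤ _ := by linarith
  · set y : ℝ := (N : ℝ) ^ ε₁ with hy
    have hy1 : 1 ≤ y := Real.one_le_rpow hN1.le hε₁.le
    have hlogy : Real.log y = ε₁ * L := by rw [hy, Real.log_rpow hN0]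
    have hy8 : y ≤ (N : ℝ) ^ (1 / 8 : ℝ) := Real.rpow_le_rpow_of_exponent_le hN1.le hε₁8
    have hyj : y ^ j ≤ (N : ℝ) ^ (1 / 4 : ℝ) := by
      rw [hy, ← Real.rpow_natCast, ← Real.rpow_mul hN0.le]
      exact Real.rpow_le_rpow_of_exponent_le hN1.le hcase
    -- Brun-Titchmarsh for moduli `≤ N ^ (1/4)`
    have bt : ∀ k : ℕ, 1 ≤ k → (k : ℝ) ≤ (N : ℝ) ^ (1 / 4 : ℝ) →
        ((cl N F k).card : ℝ) ≤ 4 * N / L / (Nat.totient k : ℝ) := by
      intro k hk hkN
      obtain ⟨s, hs⟩ := cl_le_cnt (N := N) hF.cop k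
      have hk0 : (0 : ℝ) < k := by exact_mod_cast hk
      have ht0 : (0 : ℝ) < Nat.totient k := by exact_mod_cast Nat.totient_pos.2 hk
      have h1 : (N : ℝ) ^ (3 / 4 : ℝ) ≤ N / k := by
        rw [le_div_iff₀ hk0]
        calc (N : ℝ) ^ (3 / 4 : ℝ) * k ≤ (N : ℝ) ^ (3 / 4 : ℝ) * (N : ℝ) ^ (1 / 4 : ℝ) :=
              mul_le_mul_of_nonneg_left hkN (by positivity)
          _ = N := by rw [← Real.rpow_add hN0]; norm_num
      have h2 := hZ k s N N hk (hNZ.trans h1)
      have h3 : ((cl N F k).card : ℝ) ≤ (cnt N N k s : ℝ) := by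
        exact_mod_cast hs
      have h4 : 3 / 4 * L ≤ Real.log (N / k) := by
        rw [hL, ← Real.log_rpow hN0]
        exact Real.log_le_log (by positivity) h1
      have h6 : 0 < Real.log (N / k) := by linarith
      refine (h3.trans h2).trans ?_
      rw [div_div, div_le_div_iff₀ (by positivity) (by positivity)]
      have h5 := mul_le_mul_of_nonneg_left h4
        (show 0 ≤ 4 * (N : ℝ) * (Nat.totient k : ℝ) by positivity)
      nlinarith
    set S : Finset ℕ := Q 1 y with hS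
    have hSp : ∀ l ∈ S, l.Prime := fun l hl => (mem_Q.1 hl).1
    have hSy : ∀ l ∈ S, (l : ℝ) ≤ y := fun l hl => (mem_Q.1 hl).2.2
    have hM0 : 0 ≤ 4 * (N : ℝ) / L := by positivity
    have hm1 : ∑ l ∈ S, Real.log l / ((l : ℝ) - 1) ≤ 2 * (ε₁ * L) := by
      have h1 := hmert 1 y le_rfl hy1
      rw [Real.log_one, hlogy] at h1
      have h2 : C₀ ≤ ε₁ * L := by
        have := (div_le_iff₀ hε₁).1 hLC
        linarith
      linarith
    have hmom := moment (N := N) (L := F) hM0 (show 0 ≤ ε₁ * L by positivity) j S hSp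
      (fun l hl => by
        rw [← hlogy]
        exact Real.log_le_log (by exact_mod_cast (hSp l hl).pos) (hSy l hl)) hm1
      (by
        intro D hD hc
        rw [← tot_prod D fun l hl => hSp l (hD hl)]
        apply bt
        · exact Nat.one_le_iff_ne_zero.2
            (Finset.prod_ne_zero_iff.2 fun l hl => (hSp l (hD hl)).ne_zero)
        · push_cast
          calc ∏ l ∈ D, (l : ℝ) ≤ ∏ _l ∈ D, y :=
                Finset.prod_le_prod (fun l _ => Nat.cast_nonneg l) fun l hl => hSy l (hD hl)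
            _ = y ^ D.card := by rw [Finset.prod_const]
            _ ≤ y ^ j := pow_le_pow_right₀ hy1 hc
            _ ≤ _ := hyj) j ∅ (Finset.empty_subset _) (by simp)
    have hcl1 : cl N F (∏ l ∈ (∅ : Finset ℕ), l) = PN N := by
      unfold cl
      rw [Finset.prod_empty]
      apply Finset.filter_true_of_mem
      intro p _
      simp
    rw [hcl1, Finset.prod_empty, div_one] at hmom
    -- higher prime powers
    set X : ℕ := 2 * N ^ (M + 1) with hX
    have hTT : ∑ d ∈ TT y X, Λ d ≤ δ * N := by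
      refine (sum_TT hy1 X).trans ?_
      have h1 := log_bound (M := M) (N := N) hL1
      rw [hlogy]
      have h2 : L ≤ 8 * (N : ℝ) ^ (1 / 8 : ℝ) := by
        have := Real.log_le_rpow_div hN0.le (show (0 : ℝ) < 1 / 8 by norm_num)
        rw [hL]
        linarith
      have h3 : ε₁ * L ≤ L := by nlinarith
      have hM0' : (0 : ℝ) ≤ M := Nat.cast_nonneg _
      have h4 : (N : ℝ) ^ (3 / 8 : ℝ) = (N : ℝ) ^ (1 / 8 : ℝ) * (N : ℝ) ^ (1 / 8 : ℝ) *
          (N : ℝ) ^ (1 / 8 : ℝ) := by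
        rw [← Real.rpow_add hN0, ← Real.rpow_add hN0]
        norm_num
      have h5 : (N : ℝ) = (N : ℝ) ^ (3 / 8 : ℝ) * (N : ℝ) ^ (5 / 8 : ℝ) := by
        rw [← Real.rpow_add hN0]
        norm_num
      rw [div_le_iff₀ hδ0] at hN58
      have h6 : (0 : ℝ) < (N : ℝ) ^ (1 / 8 : ℝ) := by positivity
      have h7 : (0 : ℝ) < (N : ℝ) ^ (3 / 8 : ℝ) := by positivity
      calc y * ((Nat.log 2 X : ℕ) + 1) * (ε₁ * L)
          ≤ (N : ℝ) ^ (1 / 8 : ℝ) * ((2 * M + 4) * (8 * (N : ℝ) ^ (1 / 8 : ℝ))) *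
              (8 * (N : ℝ) ^ (1 / 8 : ℝ)) := by
            have k1 : ((Nat.log 2 X : ℕ) : ℝ) + 1 ≤ (2 * M + 4) * (8 * (N : ℝ) ^ (1 / 8 : ℝ)) :=
              h1.trans (mul_le_mul_of_nonneg_left h2 (by positivity))
            have k2 : y * ((Nat.log 2 X : ℕ) + 1) ≤
                (N : ℝ) ^ (1 / 8 : ℝ) * ((2 * M + 4) * (8 * (N : ℝ) ^ (1 / 8 : ℝ))) :=
              mul_le_mul hy8 k1 (by positivity) (by positivity)
            exact mul_le_mul k2 (h3.trans h2) (by positivity) (by positivity)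
        _ = 64 * (2 * M + 4) * (N : ℝ) ^ (3 / 8 : ℝ) := by rw [h4]; ring
        _ ≤ (N : ℝ) ^ (5 / 8 : ℝ) * δ * (N : ℝ) ^ (3 / 8 : ℝ) :=
            mul_le_mul_of_nonneg_right hN58 h7.le
        _ = δ * N := by
            nth_rewrite 3 [h5]
            ring
    set g : ℕ → ℝ := fun p => ∑ d ∈ TT y X, if (d : ℤ) ∣ lf F p then Λ d else 0 with hg
    have hg0 : ∀ p, 0 ≤ g p := by
      intro p
      apply Finset.sum_nonneg
      intro d _
      split_ifs
      · exact vonMangoldt_nonneg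
      · exact le_rfl
    have hsumg : ∑ p ∈ PN N, g p ≤ 3 * δ * N := by
      have e1 : ∑ p ∈ PN N, g p = ∑ d ∈ TT y X, Λ d * ((cl N F d).card : ℝ) := by
        simp only [hg]
        rw [Finset.sum_comm]
        apply Finset.sum_congr rfl
        intro d _
        rw [← Finset.sum_filter, Finset.sum_const, nsmul_eq_mul, mul_comm]
        rfl
      rw [e1]
      have h1 := hnp N F hF.cop (TT y X) (fun d hd => ⟨(mem_TT.1 hd).1.1, (mem_TT.1 hd).2.1⟩)
      have h2 : S₀ * (PN N).card ≤ S₀ * (3 * N / L) := mul_le_mul_of_nonneg_left hcardP hS₀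
      have h3 : S₀ * (3 * N / L) ≤ δ * N := by
        rw [div_le_iff₀ hδ0] at hLS
        rw [mul_div_assoc', div_le_iff₀ hL0]
        have h4 := mul_le_mul_of_nonneg_right hLS hN0.le
        calc S₀ * (3 * (N : ℝ)) = 3 * S₀ * N := by ring
          _ ≤ L * δ * N := h4
          _ = δ * N * L := by ring
      linarith
    have hk1 := markov (PN N) (fun p => RL S F p ^ j) (fun p _ => pow_nonneg (RL_nonneg S F p) j)
      ((ε * L / 2) ^ j) _ (by positivity) hmom
    have hk2 := markov (PN N) g (fun p _ => hg0 p) (ε * L / 2) _ (by positivity) hsumg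
    have hsub : Bad ⊆ (PN N).filter (fun p => (ε * L / 2) ^ j ≤ RL S F p ^ j) ∪
        (PN N).filter (fun p => ε * L / 2 ≤ g p) := by
      intro p hp
      rw [hBad, mem_filter, mem_Icc] at hp
      obtain ⟨⟨hp1, hpN⟩, hpp, hpa, m, hm, hml, hmN⟩ := hp
      have h1 := log_leL (X := X) hpa (lf_bound hF hN1' hpN) hm hml
      have h2 : ε * L ≤ Real.log m := by
        rw [hL, ← Real.log_rpow hN0]
        exact Real.log_le_log (by positivity) hmN.le
      have hpB : p ∈ PN N := mem_PN.2 ⟨hpp, hpN⟩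
      rw [mem_union]
      rcases le_or_gt (ε * L / 2) (g p) with h | h
      · exact Or.inr (mem_filter.2 ⟨hpB, h⟩)
      · refine Or.inl (mem_filter.2 ⟨hpB, ?_⟩)
        apply pow_le_pow_left₀ (by positivity)
        have h3 : RL (Q 1 ((N : ℝ) ^ ε₁)) F p = RL S F p := rfl
        rw [h3] at h1
        have h4 : (∑ d ∈ TT ((N : ℝ) ^ ε₁) X, if (d : ℤ) ∣ lf F p then Λ d else 0) = g p := rfl
        rw [h4] at h1
        linarith
    have hfin : (Bad.card : ℝ) ≤
        (((PN N).filter (fun p => (ε * L / 2) ^ j ≤ RL S F p ^ j)).card : ℝ) +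
          (((PN N).filter (fun p => ε * L / 2 ≤ g p)).card : ℝ) := by
      have := (Finset.card_le_card hsub).trans (Finset.card_union_le _ _)
      exact_mod_cast this
    refine hfin.trans ?_
    refine (add_le_add hk1 hk2).trans ?_
    have e1 : ((j + 2) * (ε₁ * L)) ^ j * (4 * (N : ℝ) / L) / (ε * L / 2) ^ j =
        4 * (2 * (j + 2)) ^ j * ((ε₁ / ε) ^ j * (N / L)) := by
      have : ((j : ℝ) + 2) * (ε₁ * L) = (2 * (j + 2)) * (ε₁ / ε) * (ε * L / 2) := by
        field_simp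
      rw [this, mul_pow, mul_pow]
      have hne : (ε * L / 2) ^ j ≠ 0 := by positivity
      field_simp
    have e2 : 3 * δ * N / (ε * L / 2) = 6 / 8 * ((ε₁ / ε) ^ j * (N / L)) := by
      rw [hδ]
      field_simp
      ring
    rw [e1, e2]
    have h9 : 0 ≤ 3 * (4 * (j : ℝ)) ^ j * ((ε₁ / ε) ^ j * ((N : ℝ) / L)) := by positivity
    linarith

end Pool.Agent.W54.KT
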